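import Pool.Agent.PermMut.Model

/-!
Identities of mutations of perm algebras: every identity of all `(p,q)`-mutations of perm algebras
over a field of characteristic zero is a consequence of the six identities of the problem.
-/

set_option autoImplicit false
set_option linter.unusedSimpArgs false
set_option linter.unusedVariables false
set_option linter.unusedSectionVars false

namespace Pool.Agent.Results.MP_e9cf85_al.Full

universe u v

/-! ### Definitions used in the statement -/

/-- The underlying vector space of the `(p,q)`-mutation of `P` (a copy of `P`). -/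
def Mutation (P : Type v) (_p _q : P) : Type v := P

/-- The element of `P` underlying an element of the mutation. -/
def Mutation.val {P : Type v} {p q : P} (x : Mutation P p q) : P := x

/-- An element of `P` viewed in the mutation. -/
def Mutation.mk {P : Type v} (p q : P) (x : P) : Mutation P p q := x

section mutation

variable {P : Type v} [NonUnitalRing P] (p q : P)

instance : AddCommGroup (Mutation P p q) := inferInstanceAs (AddCommGroup P)

/-- The product `⟨x, y⟩ = (x p) y - (y q) x` of the mutation. -/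
instance : Mul (Mutation P p q) :=
  ⟨fun x y => Mutation.mk p q (x.val * p * y.val - y.val * q * x.val)⟩

lemma mutation_mul (x y : Mutation P p q) :
    x * y = Mutation.mk p q (x.val * p * y.val - y.val * q * x.val) := rfl

instance : NonUnitalNonAssocRing (Mutation P p q) where
  left_distrib x y z := by
    change x.val * p * (y.val + z.val) - (y.val + z.val) * q * x.val =
      (x.val * p * y.val - y.val * q * x.val) + (x.val * p * z.val - z.val * q * x.val)
    simp only [mul_add, add_mul]; abel
  right_distrib x y z := by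
    change (x.val + y.val) * p * z.val - z.val * q * (x.val + y.val) =
      (x.val * p * z.val - z.val * q * x.val) + (y.val * p * z.val - z.val * q * y.val)
    simp only [mul_add, add_mul]; abel
  zero_mul x := by
    change (0 : P) * p * x.val - x.val * q * (0 : P) = (0 : P)
    simp
  mul_zero x := by
    change x.val * p * (0 : P) - (0 : P) * q * x.val = (0 : P)
    simp

variable (F : Type u) [Field F] [Module F P]

instance : Module F (Mutation P p q) := inferInstanceAs (Module F P)

instance [IsScalarTower F P P] [SMulCommClass F P P] :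
    IsScalarTower F (Mutation P p q) (Mutation P p q) where
  smul_assoc c x y := by
    change (c • x.val) * p * y.val - y.val * q * (c • x.val) =
      c • (x.val * p * y.val - y.val * q * x.val)
    simp only [smul_mul_assoc, mul_smul_comm, smul_sub]

instance [IsScalarTower F P P] [SMulCommClass F P P] :
    SMulCommClass F (Mutation P p q) (Mutation P p q) where
  smul_comm c x y := by
    change c • (x.val * p * y.val - y.val * q * x.val) =
      x.val * p * (c • y.val) - (c • y.val) * q * x.val
    simp only [smul_mul_assoc, mul_smul_comm, smul_sub]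

end mutation

section identities

variable {A : Type v} [NonUnitalNonAssocRing A]

/-- associator `⟨x, y, z⟩` -/
def assoc (x y z : A) : A := x * y * z - x * (y * z)
/-- `x • y = ⟨x, y⟩ + ⟨y, x⟩` -/
def bul (x y : A) : A := x * y + y * x

/-- `f(x₁,x₂,x₃) = ∑ sgn(σ) ⟨⟨x_σ(1), x_σ(2)⟩, x_σ(3)⟩` -/
def fId (x : Fin 3 → A) : A :=
  ∑ σ : Equiv.Perm (Fin 3), ((Equiv.Perm.sign σ : ℤˣ) : ℤ) • (x (σ 0) * x (σ 1) * x (σ 2))
/-- `WA(a,b,c)` -/
def waId (a b c : A) : A := assoc a b c + assoc b c a - assoc b a c
/-- `H̄(x₁,x₂,x₃,x₄)` -/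
def hId (x : Fin 3 → A) (x4 : A) : A :=
  ∑ σ : Equiv.Perm (Fin 3),
    (x (σ 0) * x (σ 1) * (x (σ 2) * x4) - x (σ 0) * (x (σ 1) * x (σ 2) * x4))
/-- `Ī(x₁,x₂,x₃,x₄)` -/
def iId (x1 x2 x3 x4 : A) : A :=
  assoc x2 (bul x1 x4) x3 - bul (assoc x2 x4 x3) x1 - bul (assoc x2 x1 x3) x4
/-- `g₁(a,b,c,d)` -/
def g1Id (a b c d : A) : A :=
  a * b * c * d + c * d * a * b - a * d * c * b - c * b * a * d
/-- `g₂(a,b,c,d)` -/
def g2Id (a b c d : A) : A :=
  (a * b) * (d * c) + c * (b * a) * d + b * a * c * d - a * b * d * c - b * c * a * d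
    - c * a * b * d

end identities

variable (F : Type u) [Field F]

/-- The free nonassociative `F`-algebra on the variables `x₀, x₁, …`. -/
abbrev Fr := FreeNonUnitalNonAssocAlgebra F ℕ

/-- The variables. -/
noncomputable abbrev X (i : ℕ) : Fr F := FreeNonUnitalNonAssocAlgebra.of F i

/-- The six identities of the problem, as elements of the free nonassociative algebra. -/
def sixIds : Set (Fr F) :=
  {fId ![X F 0, X F 1, X F 2], waId (X F 0) (X F 1) (X F 2), hId ![X F 0, X F 1, X F 2] (X F 3),
    iId (X F 0) (X F 1) (X F 2) (X F 3), g1Id (X F 0) (X F 1) (X F 2) (X F 3),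
    g2Id (X F 0) (X F 1) (X F 2) (X F 3)}

/-- T-ideals: two-sided ideals closed under all substitutions. -/
structure IsTIdeal (I : Submodule F (Fr F)) : Prop where
  mul_left : ∀ x y : Fr F, y ∈ I → x * y ∈ I
  mul_right : ∀ x y : Fr F, x ∈ I → x * y ∈ I
  subst : ∀ (φ : Fr F →ₙₐ[F] Fr F) (x : Fr F), x ∈ I → φ x ∈ I

/-- `g` is a consequence of `S`: it lies in every T-ideal containing `S`, that is, in the T-ideal
generated by `S`. -/
def IsConsequence (S : Set (Fr F)) (g : Fr F) : Prop :=
  ∀ I : Submodule F (Fr F), IsTIdeal F I → S ⊆ I → g ∈ I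

/-- `g` is an identity of the algebra `A`. -/
def IsIdentityOf (g : Fr F) (A : Type v) [NonUnitalNonAssocRing A] [Module F A]
    [IsScalarTower F A A] [SMulCommClass F A A] : Prop :=
  ∀ v : ℕ → A, FreeNonUnitalNonAssocAlgebra.lift F v g = 0

/-! ### Proof -/

section perms

variable {A : Type v} [NonUnitalNonAssocRing A]

lemma sum_perm3 {M : Type v} [AddCommGroup M] (G : Equiv.Perm (Fin 3) → M) :
    ∑ σ : Equiv.Perm (Fin 3), G σ = G 1 + G (Equiv.swap 0 1) + G (Equiv.swap 0 2) +
      G (Equiv.swap 1 2) + G (Equiv.swap 0 1 * Equiv.swap 1 2) +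
      G (Equiv.swap 1 2 * Equiv.swap 0 1) := by
  have : (Finset.univ : Finset (Equiv.Perm (Fin 3))) =
      {1, Equiv.swap 0 1, Equiv.swap 0 2, Equiv.swap 1 2, Equiv.swap 0 1 * Equiv.swap 1 2,
        Equiv.swap 1 2 * Equiv.swap 0 1} := by decide
  rw [this]
  rw [Finset.sum_insert (by decide), Finset.sum_insert (by decide), Finset.sum_insert (by decide),
    Finset.sum_insert (by decide), Finset.sum_insert (by decide), Finset.sum_singleton]
  abel

lemma fId_eq (x : Fin 3 → A) : fId x = x 0 * x 1 * x 2 + x 1 * x 2 * x 0 + x 2 * x 0 * x 1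
    - x 1 * x 0 * x 2 - x 0 * x 2 * x 1 - x 2 * x 1 * x 0 := by
  unfold fId
  rw [sum_perm3]
  have s1 : (Equiv.Perm.sign (1 : Equiv.Perm (Fin 3)) : ℤˣ) = 1 := by decide
  have s2 : (Equiv.Perm.sign (Equiv.swap 0 1 : Equiv.Perm (Fin 3)) : ℤˣ) = -1 := by decide
  have s3 : (Equiv.Perm.sign (Equiv.swap 0 2 : Equiv.Perm (Fin 3)) : ℤˣ) = -1 := by decide
  have s4 : (Equiv.Perm.sign (Equiv.swap 1 2 : Equiv.Perm (Fin 3)) : ℤˣ) = -1 := by decide
  have s5 : (Equiv.Perm.sign (Equiv.swap 0 1 * Equiv.swap 1 2 : Equiv.Perm (Fin 3)) : ℤˣ) = 1 := by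
    decide
  have s6 : (Equiv.Perm.sign (Equiv.swap 1 2 * Equiv.swap 0 1 : Equiv.Perm (Fin 3)) : ℤˣ) = 1 := by
    decide
  rw [s1, s2, s3, s4, s5, s6]
  have t1 : (Equiv.swap 0 1 : Equiv.Perm (Fin 3)) 0 = 1 := by decide
  have t2 : (Equiv.swap 0 1 : Equiv.Perm (Fin 3)) 1 = 0 := by decide
  have t3 : (Equiv.swap 0 1 : Equiv.Perm (Fin 3)) 2 = 2 := by decide
  have t4 : (Equiv.swap 0 2 : Equiv.Perm (Fin 3)) 0 = 2 := by decide
  have t5 : (Equiv.swap 0 2 : Equiv.Perm (Fin 3)) 1 = 1 := by decide
  have t6 : (Equiv.swap 0 2 : Equiv.Perm (Fin 3)) 2 = 0 := by decide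
  have t7 : (Equiv.swap 1 2 : Equiv.Perm (Fin 3)) 0 = 0 := by decide
  have t8 : (Equiv.swap 1 2 : Equiv.Perm (Fin 3)) 1 = 2 := by decide
  have t9 : (Equiv.swap 1 2 : Equiv.Perm (Fin 3)) 2 = 1 := by decide
  simp only [Equiv.Perm.mul_apply, Equiv.Perm.one_apply, t1, t2, t3, t4, t5, t6, t7, t8, t9]
  simp
  abel

lemma hId_eq (x : Fin 3 → A) (y : A) : hId x y =
    (x 0 * x 1 * (x 2 * y) - x 0 * (x 1 * x 2 * y)) + (x 1 * x 0 * (x 2 * y) - x 1 * (x 0 * x 2 * y))
    + (x 2 * x 1 * (x 0 * y) - x 2 * (x 1 * x 0 * y)) + (x 0 * x 2 * (x 1 * y) - x 0 * (x 2 * x 1 * y))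
    + (x 1 * x 2 * (x 0 * y) - x 1 * (x 2 * x 0 * y)) + (x 2 * x 0 * (x 1 * y) - x 2 * (x 0 * x 1 * y))
    := by
  unfold hId
  rw [sum_perm3]
  have t1 : (Equiv.swap 0 1 : Equiv.Perm (Fin 3)) 0 = 1 := by decide
  have t2 : (Equiv.swap 0 1 : Equiv.Perm (Fin 3)) 1 = 0 := by decide
  have t3 : (Equiv.swap 0 1 : Equiv.Perm (Fin 3)) 2 = 2 := by decide
  have t4 : (Equiv.swap 0 2 : Equiv.Perm (Fin 3)) 0 = 2 := by decide
  have t5 : (Equiv.swap 0 2 : Equiv.Perm (Fin 3)) 1 = 1 := by decide
  have t6 : (Equiv.swap 0 2 : Equiv.Perm (Fin 3)) 2 = 0 := by decide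
  have t7 : (Equiv.swap 1 2 : Equiv.Perm (Fin 3)) 0 = 0 := by decide
  have t8 : (Equiv.swap 1 2 : Equiv.Perm (Fin 3)) 1 = 2 := by decide
  have t9 : (Equiv.swap 1 2 : Equiv.Perm (Fin 3)) 2 = 1 := by decide
  simp only [Equiv.Perm.mul_apply, Equiv.Perm.one_apply, t1, t2, t3, t4, t5, t6, t7, t8, t9]

end perms

/-! The six identities hold in every mutation of a perm algebra. -/

section verify

variable {P : Type v} [NonUnitalRing P] (p q : P)

lemma val_mul (x y : Mutation P p q) :
    (x * y).val = x.val * p * y.val - y.val * q * x.val := rfl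
lemma val_add (x y : Mutation P p q) : (x + y).val = x.val + y.val := rfl
lemma val_sub (x y : Mutation P p q) : (x - y).val = x.val - y.val := rfl
lemma val_inj {x : Mutation P p q} (h : x.val = 0) : x = 0 := h

variable (hP : ∀ a b c : P, a * b * c = b * a * c)

include hP in
lemma perm_lc (a b c : P) : a * (b * c) = b * (a * c) := by
  rw [← mul_assoc, hP, mul_assoc]

include hP in
lemma ver_f (x : Fin 3 → Mutation P p q) : fId x = 0 := by
  have lc := perm_lc hP
  rw [fId_eq]
  apply val_inj
  simp only [val_mul, val_add, val_sub, mul_sub, sub_mul, mul_assoc, lc]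
  abel

include hP in
lemma ver_wa (a b c : Mutation P p q) : waId a b c = 0 := by
  have lc := perm_lc hP
  unfold waId assoc
  apply val_inj
  simp only [val_mul, val_add, val_sub, mul_sub, sub_mul, mul_assoc, lc]
  abel

include hP in
lemma ver_h (x : Fin 3 → Mutation P p q) (y : Mutation P p q) : hId x y = 0 := by
  have lc := perm_lc hP
  rw [hId_eq]
  apply val_inj
  simp only [val_mul, val_add, val_sub, mul_sub, sub_mul, mul_assoc, lc]
  abel

include hP in
lemma ver_i (a b c d : Mutation P p q) : iId a b c d = 0 := by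
  have lc := perm_lc hP
  unfold iId assoc bul
  apply val_inj
  simp only [val_mul, val_add, val_sub, mul_sub, sub_mul, mul_add, add_mul, mul_assoc, lc]
  abel

include hP in
lemma ver_g1 (a b c d : Mutation P p q) : g1Id a b c d = 0 := by
  have lc := perm_lc hP
  unfold g1Id
  apply val_inj
  simp only [val_mul, val_add, val_sub, mul_sub, sub_mul, mul_assoc, lc]
  abel

include hP in
lemma ver_g2 (a b c d : Mutation P p q) : g2Id a b c d = 0 := by
  have lc := perm_lc hP
  unfold g2Id
  apply val_inj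
  simp only [val_mul, val_add, val_sub, mul_sub, sub_mul, mul_assoc, lc]
  abel

end verify

/-! Substitution of homomorphisms in the identities. -/

section homs

variable {A B : Type v} [NonUnitalNonAssocRing A] [NonUnitalNonAssocRing B]
  {F : Type u} [Field F] [Module F A] [Module F B]

lemma hom_f (φ : A →ₙₐ[F] B) (x : Fin 3 → A) : φ (fId x) = fId (fun i => φ (x i)) := by
  rw [fId_eq, fId_eq]; simp only [map_add, map_sub, map_mul]
lemma hom_wa (φ : A →ₙₐ[F] B) (a b c : A) : φ (waId a b c) = waId (φ a) (φ b) (φ c) := by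
  unfold waId assoc; simp only [map_add, map_sub, map_mul]
lemma hom_h (φ : A →ₙₐ[F] B) (x : Fin 3 → A) (y : A) :
    φ (hId x y) = hId (fun i => φ (x i)) (φ y) := by
  rw [hId_eq, hId_eq]; simp only [map_add, map_sub, map_mul]
lemma hom_i (φ : A →ₙₐ[F] B) (a b c d : A) : φ (iId a b c d) = iId (φ a) (φ b) (φ c) (φ d) := by
  unfold iId assoc bul; simp only [map_add, map_sub, map_mul]
lemma hom_g1 (φ : A →ₙₐ[F] B) (a b c d : A) : φ (g1Id a b c d) = g1Id (φ a) (φ b) (φ c) (φ d) := by
  unfold g1Id; simp only [map_add, map_sub, map_mul]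
lemma hom_g2 (φ : A →ₙₐ[F] B) (a b c d : A) : φ (g2Id a b c d) = g2Id (φ a) (φ b) (φ c) (φ d) := by
  unfold g2Id; simp only [map_add, map_sub, map_mul]

end homs

section tideal

variable (F : Type u) [Field F]

/-- identities of an algebra form a T-ideal -/
def idOf (A : Type v) [NonUnitalNonAssocRing A] [Module F A]
    [IsScalarTower F A A] [SMulCommClass F A A] : Submodule F (Fr F) where
  carrier := {g | IsIdentityOf F g A}
  add_mem' {a b} ha hb v := by rw [map_add, ha v, hb v, add_zero]
  zero_mem' v := by rw [map_zero]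
  smul_mem' c x hx v := by rw [map_smul, hx v, smul_zero]

lemma idOf_tideal (A : Type v) [NonUnitalNonAssocRing A] [Module F A]
    [IsScalarTower F A A] [SMulCommClass F A A] : IsTIdeal F (idOf F A) where
  mul_left x y hy v := by rw [map_mul, hy v, mul_zero]
  mul_right x y hx v := by rw [map_mul, hx v, zero_mul]
  subst φ x hx v := by
    have : (FreeNonUnitalNonAssocAlgebra.lift F v).comp φ =
        FreeNonUnitalNonAssocAlgebra.lift F
          (fun i => FreeNonUnitalNonAssocAlgebra.lift F v (φ (X F i))) := by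
      apply FreeNonUnitalNonAssocAlgebra.hom_ext
      intro i
      simp
    have h2 := congrArg (fun ψ : Fr F →ₙₐ[F] A => ψ x) this
    simp only [NonUnitalAlgHom.comp_apply] at h2
    rw [h2]
    exact hx _

lemma six_mutation (P : Type u) [NonUnitalRing P] [Module F P] [IsScalarTower F P P]
    [SMulCommClass F P P] (hP : ∀ a b c : P, a * b * c = b * a * c) (p q : P) :
    sixIds F ⊆ (idOf F (Mutation P p q) : Set (Fr F)) := by
  rintro g (rfl | rfl | rfl | rfl | rfl | rfl) v
  · rw [hom_f, ver_f p q hP]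
  · rw [hom_wa, ver_wa p q hP]
  · rw [hom_h, ver_h p q hP]
  · rw [hom_i, ver_i p q hP]
  · rw [hom_g1, ver_g1 p q hP]
  · rw [hom_g2, ver_g2 p q hP]

/-- the T-ideal generated by `S` -/
def gen (S : Set (Fr F)) : Submodule F (Fr F) where
  carrier := {g | IsConsequence F S g}
  add_mem' {a b} ha hb I hI hS := I.add_mem (ha I hI hS) (hb I hI hS)
  zero_mem' I hI hS := I.zero_mem
  smul_mem' c x hx I hI hS := I.smul_mem c (hx I hI hS)

lemma gen_tideal (S : Set (Fr F)) : IsTIdeal F (gen F S) where
  mul_left x y hy I hI hS := hI.mul_left x y (hy I hI hS)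
  mul_right x y hx I hI hS := hI.mul_right x y (hx I hI hS)
  subst φ x hx I hI hS := hI.subst φ x (hx I hI hS)

lemma subset_gen (S : Set (Fr F)) : S ⊆ (gen F S : Set (Fr F)) := fun _ hg _ _ hS => hS hg

/-- the relatively free algebra -/
def RF (S : Set (Fr F)) : Type u := Fr F ⧸ gen F S

noncomputable instance (S : Set (Fr F)) : AddCommGroup (RF F S) :=
  inferInstanceAs (AddCommGroup (Fr F ⧸ gen F S))
noncomputable instance (S : Set (Fr F)) : Module F (RF F S) :=
  inferInstanceAs (Module F (Fr F ⧸ gen F S))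

/-- the projection -/
noncomputable def prj (S : Set (Fr F)) : Fr F →ₗ[F] RF F S := (gen F S).mkQ

lemma prj_surj (S : Set (Fr F)) : Function.Surjective (prj F S) := Submodule.mkQ_surjective _

lemma prj_eq_zero (S : Set (Fr F)) (x : Fr F) : prj F S x = 0 ↔ x ∈ gen F S :=
  Submodule.Quotient.mk_eq_zero _

lemma prj_eq (S : Set (Fr F)) (x y : Fr F) : prj F S x = prj F S y ↔ x - y ∈ gen F S := by
  rw [← prj_eq_zero, map_sub, sub_eq_zero]

noncomputable instance (S : Set (Fr F)) : Mul (RF F S) :=
  ⟨fun a b => prj F S ((prj_surj F S a).choose * (prj_surj F S b).choose)⟩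

lemma prj_mul (S : Set (Fr F)) (x y : Fr F) : prj F S (x * y) = prj F S x * prj F S y := by
  change _ = prj F S ((prj_surj F S (prj F S x)).choose * (prj_surj F S (prj F S y)).choose)
  have h1 := (prj_surj F S (prj F S x)).choose_spec
  have h2 := (prj_surj F S (prj F S y)).choose_spec
  generalize (prj_surj F S (prj F S x)).choose = x' at h1 ⊢
  generalize (prj_surj F S (prj F S y)).choose = y' at h2 ⊢
  rw [prj_eq] at h1 h2 ⊢
  have : x * y - x' * y' = -(x' * (y' - y)) - (x' - x) * y := by
    rw [mul_sub, sub_mul]; abel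
  rw [this]
  exact (gen F S).sub_mem ((gen F S).neg_mem ((gen_tideal F S).mul_left _ _ h2))
    ((gen_tideal F S).mul_right _ _ h1)

noncomputable instance (S : Set (Fr F)) : NonUnitalNonAssocRing (RF F S) where
  left_distrib a b c := by
    obtain ⟨a, rfl⟩ := prj_surj F S a
    obtain ⟨b, rfl⟩ := prj_surj F S b
    obtain ⟨c, rfl⟩ := prj_surj F S c
    rw [← map_add, ← prj_mul, mul_add, map_add, prj_mul, prj_mul]
  right_distrib a b c := by
    obtain ⟨a, rfl⟩ := prj_surj F S a
    obtain ⟨b, rfl⟩ := prj_surj F S b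
    obtain ⟨c, rfl⟩ := prj_surj F S c
    rw [← map_add, ← prj_mul, add_mul, map_add, prj_mul, prj_mul]
  zero_mul a := by
    obtain ⟨a, rfl⟩ := prj_surj F S a
    rw [← map_zero (prj F S), ← prj_mul, zero_mul]
  mul_zero a := by
    obtain ⟨a, rfl⟩ := prj_surj F S a
    rw [← map_zero (prj F S), ← prj_mul, mul_zero]

instance (S : Set (Fr F)) : IsScalarTower F (RF F S) (RF F S) where
  smul_assoc c a b := by
    obtain ⟨a, rfl⟩ := prj_surj F S a
    obtain ⟨b, rfl⟩ := prj_surj F S b
    simp only [smul_eq_mul]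
    rw [← map_smul, ← prj_mul, ← prj_mul, smul_mul_assoc, map_smul]

instance (S : Set (Fr F)) : SMulCommClass F (RF F S) (RF F S) where
  smul_comm c a b := by
    obtain ⟨a, rfl⟩ := prj_surj F S a
    obtain ⟨b, rfl⟩ := prj_surj F S b
    simp only [smul_eq_mul]
    rw [← map_smul, ← prj_mul, ← prj_mul, mul_smul_comm, map_smul]

/-- the projection as an algebra homomorphism -/
noncomputable def prjHom (S : Set (Fr F)) : Fr F →ₙₐ[F] RF F S :=
  { toFun := prj F S
    map_smul' := fun c x => (prj F S).map_smul c x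
    map_zero' := (prj F S).map_zero
    map_add' := (prj F S).map_add
    map_mul' := prj_mul F S }

lemma prjHom_apply (S : Set (Fr F)) (x : Fr F) : prjHom F S x = prj F S x := rfl

variable [CharZero F]

open Pool.Agent.PermMut in
lemma RF_hyp : Hyp (RF F (sixIds F)) := by
  set S := sixIds F with hS
  have hmem : ∀ g ∈ S, ∀ v : ℕ → Fr F,
      prjHom F S (FreeNonUnitalNonAssocAlgebra.lift F v g) = 0 := by
    intro g hg v
    rw [prjHom_apply, prj_eq_zero]
    exact (gen_tideal F S).subst _ _ (subset_gen F S hg)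
  refine ⟨?_, ?_, ?_, ?_, ?_⟩
  · intro n t hn h
    have h1 : ((n : F)) • t = 0 := by rw [Int.cast_smul_eq_zsmul]; exact h
    rcases smul_eq_zero.mp h1 with h2 | h2
    · exact absurd (by exact_mod_cast h2) hn
    · exact h2
  · intro x y z
    obtain ⟨x, rfl⟩ := prj_surj F S x
    obtain ⟨y, rfl⟩ := prj_surj F S y
    obtain ⟨z, rfl⟩ := prj_surj F S z
    have := hmem _ (by rw [hS]; exact Or.inl rfl) (fun i => if i = 0 then x else if i = 1 then y else z)
    rw [hom_f, hom_f, fId_eq] at this
    simpa [prjHom_apply] using this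
  · intro x y z
    obtain ⟨x, rfl⟩ := prj_surj F S x
    obtain ⟨y, rfl⟩ := prj_surj F S y
    obtain ⟨z, rfl⟩ := prj_surj F S z
    have := hmem _ (by rw [hS]; exact Or.inr (Or.inl rfl))
      (fun i => if i = 0 then x else if i = 1 then y else z)
    rw [hom_wa, hom_wa] at this
    simpa [prjHom_apply, waId, assoc] using this
  · intro x y z w
    obtain ⟨x, rfl⟩ := prj_surj F S x
    obtain ⟨y, rfl⟩ := prj_surj F S y
    obtain ⟨z, rfl⟩ := prj_surj F S z
    obtain ⟨w, rfl⟩ := prj_surj F S w
    have := hmem _ (by rw [hS]; exact Or.inr (Or.inr (Or.inr (Or.inr (Or.inl rfl)))))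
      (fun i => if i = 0 then x else if i = 1 then y else if i = 2 then z else w)
    rw [hom_g1, hom_g1] at this
    simpa [prjHom_apply, g1Id] using this
  · intro x y z w
    obtain ⟨x, rfl⟩ := prj_surj F S x
    obtain ⟨y, rfl⟩ := prj_surj F S y
    obtain ⟨z, rfl⟩ := prj_surj F S z
    obtain ⟨w, rfl⟩ := prj_surj F S w
    have := hmem _ (by rw [hS]; exact Or.inr (Or.inr (Or.inr (Or.inr (Or.inr rfl)))))
      (fun i => if i = 0 then x else if i = 1 then y else if i = 2 then z else w)
    rw [hom_g2, hom_g2] at this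
    simpa [prjHom_apply, g2Id] using this

open Pool.Agent.PermMut in
omit [CharZero F] in
lemma RF_words (S : Set (Fr F)) (z : RF F S) :
    z ∈ Submodule.span F {w | Word (fun i => prj F S (X F i)) w} := by
  obtain ⟨z, rfl⟩ := prj_surj F S z
  have hw : ∀ m : FreeMagma ℕ,
      Word (fun i => prj F S (X F i)) (prj F S (MonoidAlgebra.single m 1)) := by
    intro m
    induction m with
    | ih1 i => exact Word.gen i
    | ih2 a b iha ihb =>
      have : (MonoidAlgebra.single (a * b) 1 : Fr F) =
          MonoidAlgebra.single a 1 * MonoidAlgebra.single b 1 := by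
        rw [MonoidAlgebra.single_mul_single, one_mul]
      change Word _ (prj F S (MonoidAlgebra.single (a * b) 1))
      rw [this, prj_mul]
      exact Word.mul iha ihb
  induction z using MonoidAlgebra.induction_linear with
  | zero => rw [map_zero]; exact Submodule.zero_mem _
  | add x y hx hy => rw [map_add]; exact Submodule.add_mem _ hx hy
  | single m r =>
    have : (MonoidAlgebra.single m r : Fr F) = r • MonoidAlgebra.single m 1 := by
      rw [MonoidAlgebra.smul_single]; simp
    rw [this, map_smul]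
    exact Submodule.smul_mem _ _ (Submodule.subset_span (hw m))

open Pool.Agent.PermMut in
/-- the generic mutation -/
abbrev GM := Mutation (PP F) (pp F) (qq F)

open Pool.Agent.PermMut in
/-- evaluation in the generic mutation -/
noncomputable def evH : Fr F →ₙₐ[F] GM F :=
  FreeNonUnitalNonAssocAlgebra.lift F (fun i => Mutation.mk (pp F) (qq F) (bs F 0 (i + 2)))

/-- evaluation as a linear map -/
noncomputable def evL : Fr F →ₗ[F] GM F :=
  { toFun := evH F
    map_add' := map_add (evH F)
    map_smul' := fun c x => map_smul (evH F) c x }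

lemma evL_gen (x : Fr F) (hx : x ∈ gen F (sixIds F)) : evL F x = 0 := by
  have h1 := hx _ (idOf_tideal F (GM F)) (six_mutation F _ (Pool.Agent.PermMut.PP_perm F) _ _)
  exact h1 _

open Pool.Agent.PermMut in
/-- descent to the relatively free algebra -/
noncomputable def evQ : RF F (sixIds F) →ₗ[F] PP F :=
  (gen F (sixIds F)).liftQ (evL F) (fun x hx => evL_gen F x hx)

lemma evQ_prj (x : Fr F) : evQ F (prj F (sixIds F) x) = evH F x :=
  Submodule.liftQ_apply _ _ _

open Pool.Agent.PermMut in
lemma evQ_mul (x y : RF F (sixIds F)) :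
    evQ F (x * y) = evQ F x * pp F * evQ F y - evQ F y * qq F * evQ F x := by
  obtain ⟨x, rfl⟩ := prj_surj F _ x
  obtain ⟨y, rfl⟩ := prj_surj F _ y
  rw [← prj_mul, evQ_prj, evQ_prj, evQ_prj, map_mul]
  rfl

open Pool.Agent.PermMut in
lemma evQ_gen (i : ℕ) : evQ F (prj F (sixIds F) (X F i)) = bs F 0 (i + 2) := by
  rw [evQ_prj]
  have h : evH F (X F i) = Mutation.mk (pp F) (qq F) (bs F 0 (i + 2)) := by
    unfold evH X
    rw [FreeNonUnitalNonAssocAlgebra.lift_of_apply]
  exact h

open Pool.Agent.PermMut in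
lemma evH_injective_mod (x : Fr F) (hx : evH F x = 0) : x ∈ gen F (sixIds F) := by
  rw [← prj_eq_zero]
  apply Phi_injective F (fun i => prj F (sixIds F) (X F i)) (evQ F) (evQ_mul F) (evQ_gen F)
    (RF_words F _) (RF_hyp F)
  rw [evQ_prj]
  exact hx

end tideal

/-- **Full answer to Q1 (affirmative).** Over a field of characteristic zero, an element `g` of the
free nonassociative algebra is an identity of all mutations `P_{p,q}` of all perm algebras `P` if
and only if it is a consequence of `f`, `WA`, `H̄`, `Ī`, `g₁`, `g₂`, i.e. lies in the T-ideal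
generated by them. -/
theorem result (F : Type u) [Field F] [CharZero F] (g : Fr F) :
    (∀ (P : Type u) [NonUnitalRing P] [Module F P] [IsScalarTower F P P] [SMulCommClass F P P],
      (∀ a b c : P, a * b * c = b * a * c) → ∀ p q : P, IsIdentityOf F g (Mutation P p q)) ↔
    IsConsequence F (sixIds F) g := by
  constructor
  · intro h
    exact evH_injective_mod F g (h _ (Pool.Agent.PermMut.PP_perm F) _ _ _)
  · intro h P _ _ _ _ hP p q
    exact h _ (idOf_tideal F _) (six_mutation F P hP p q)

end Pool.Agent.Results.MP_e9cf85_al.Full
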